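import Pool.Agent.Y707.PR.Sys
import Pool.Agent.Y707.PC.Fin

/-! Residues for linear pencils of hyperelliptic curves. -/

set_option autoImplicit false
set_option maxHeartbeats 400000

namespace Pool.Agent.Y707.PR

open Polynomial NumberField IsDedekindDomain Filter Topology
open Pool.Agent.H921R2.TatePole (nm)
open Pool.Agent.W353.TD (rank)
open Pool.Agent.W353.FB (LocalValue ValueAt IsPartOf Uniq average_unique)
open Pool.Agent.Y707.PH (averageValue Off)
open Pool.Agent.Y707.PC
open Pool.Agent.Y707.RX (IsBounded)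

section
variable {K : Type} [Field K] [NumberField K] {k l r g : ℕ}
  {G : Fin l → MvPolynomial (Fin k) (𝓞 K)}
  {a : (MvPolynomial (Fin k) (𝓞 K))[X]} {α : Fin r → MvPolynomial (Fin k) (𝓞 K)}

theorem uniq_average : Uniq (averageValue (pencil g G a α)) := by
  rintro κ _ _ φ z z' ⟨A, h1, rfl⟩ ⟨A', h1', rfl⟩
  rw [average_unique _ (by show 1 ≤ 2 * 1; omega) h1 h1']

/-- the value at the primes of an extension -/
theorem valueAt_TTF (ha : a.Monic) (hd : a.natDegree = 2 * g + 1) (hr : r ≤ 2 * g)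
    {F : Type} [Field F] [NumberField F] [Algebra K F]
    (v : HeightOneSpectrum (𝓞 F)) : ValueAt (averageValue (pencil g G a α)) v
      (((Nat.card (𝓞 F ⧸ v.asIdeal) : ℝ) ^ (k + 1))⁻¹ *
        TT g G a α ((Ideal.Quotient.mk v.asIdeal).comp (algebraMap (𝓞 K) (𝓞 F)))) := by
  intro κ _ φ hker hcard
  obtain ⟨θ, hθ⟩ := residue_iso v φ hker hcard
  have hfk : Finite κ := Finite.of_equiv _ θ.toEquiv
  let _ := Fintype.ofFinite κ
  rw [averageValue_iff ha hd hr, ← hθ, RingHom.comp_assoc, TT_iso, Nat.card_congr θ.toEquiv]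

theorem value_bound (ha : a.Monic) (hd : a.natDegree = 2 * g + 1) (hr : r ≤ 2 * g)
    {F : Type} [Field F] [NumberField F] [Algebra K F] {v : HeightOneSpectrum (𝓞 F)} {z : ℝ}
    (h : ValueAt (averageValue (pencil g G a α)) v z) : |z| ≤ CC l g a α := by
  obtain ⟨κ, _, _, φ, hk, hc⟩ := Pool.Agent.W353.PV.exists_ext v 1 le_rfl
  rw [pow_one] at hc
  exact bounded (R := ∅) ha hd hr κ _ (fun v hv => absurd hv (Finset.notMem_empty v)) z
    (h κ φ hk hc)

open Classical in
/-- the residue, with `n` more -/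
theorem pencil_residue (hG : ∀ S : Finset (Fin l), S.Nonempty → ¬ IsConstSq (∏ i ∈ S, G i))
    (ha : a.Monic) (hd : a.natDegree = 2 * g + 1) (hr : r ≤ 2 * g)
    (haα : ∀ j, a.eval (α j) ≠ 0) (hα : Function.Injective α)
    (F : IntermediateField K (AlgebraicClosure K)) [NumberField F]
    {b : HeightOneSpectrum (𝓞 F) → ℝ}
    (hb : ∀ᶠ v in cofinite, ValueAt (averageValue (pencil g G a α)) v (b v)) {B : ℝ}
    (hB : ∀ v, |b v| ≤ B) (n : ℤ) (R : Finset (HeightOneSpectrum (𝓞 F))) :
    ∃ H : ℂ → ℂ, AnalyticAt ℂ H 1 ∧ ∀ᶠ w in 𝓝 (1 : ℂ), 1 < w.re →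
      ∑' v : HeightOneSpectrum (𝓞 F), (if v ∈ R then 0 else ((n + b v : ℝ) : ℂ)) *
        (Real.log (nm v) : ℂ) * ((nm v : ℕ) : ℂ) ^ (-w) =
        ((n + count G a α F : ℤ) : ℂ) / (w - 1) + H w := by
  obtain ⟨δ, y, hy, hy0, hδ, hP⟩ := isPartOf ha hd hr haα hα (ne_of_ind hG)
  have h := residue_sys uniq_average hP F hb hB n R
  have e := rank_eq haα (ne_of_ind hG) hG (hy := hy) (hy0 := hy0) hδ F
  have e2 : rank (rp hy hy0) F = count G a α F := by
    exact_mod_cast e
  rw [e2] at h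
  exact h

/-- **The residue for a linear pencil.** -/
theorem pencil_hasResidue (hG : ∀ S : Finset (Fin l), S.Nonempty → ¬ IsConstSq (∏ i ∈ S, G i))
    (ha : a.Monic) (hd : a.natDegree = 2 * g + 1) (hr : r ≤ 2 * g)
    (haα : ∀ j, a.eval (α j) ≠ 0) (hα : Function.Injective α)
    (F : IntermediateField K (AlgebraicClosure K)) [NumberField F]
    {b : HeightOneSpectrum (𝓞 F) → ℝ}
    (hb : ∀ v, ValueAt (averageValue (pencil g G a α)) v (b v))
    (R : Finset (HeightOneSpectrum (𝓞 F))) : HasResidue R b 1 (count G a α F) := by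
  classical
  have hB : ∀ v, |b v| ≤ CC l g a α := fun v => value_bound ha hd hr (hb v)
  constructor
  · intro s hs
    have h1 := summable_log (F := F) (c := fun v => ((b v : ℝ) : ℂ)) (B := CC l g a α) (fun v => by
      rw [Complex.norm_real]
      exact hB v) hs
    exact h1.comp_injective Subtype.val_injective
  · obtain ⟨H, hH, hw⟩ := pencil_residue hG ha hd hr haα hα F
      (Filter.Eventually.of_forall hb) hB 0 R
    refine ⟨H, by rw [Complex.ofReal_one]; exact hH, ?_⟩
    rw [Complex.ofReal_one]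
    filter_upwards [hw] with s hs h1
    rw [series_eq]
    have h2 := hs h1
    simp only [Int.cast_zero, zero_add] at h2
    rw [h2]
    push_cast
    rfl

end

end Pool.Agent.Y707.PR
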