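import Pool.Agent.Y707.RX.Key

/-! Residues of Dirichlet series over the primes of a number field. -/

set_option autoImplicit false
set_option maxHeartbeats 400000

namespace Pool.Agent.Y707.PR

open NumberField IsDedekindDomain Filter Topology
open Pool.Agent.H126R3 (Qc Qc_pos)
open Pool.Agent.W385.CP (Qc_zero)
open Pool.Agent.H921R2.TatePole (nm two_le_nm below deg nm_eq nm_summable fiber_card_le kerPrime
  kerPrime_bijective)
open Pool.Agent.Y707.RX (SD SD_diff summable_bdd cmb near_one)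

section
variable {F : Type} [Field F] [NumberField F]

/-- the prime number and the degree, minus one -/
noncomputable def pi' (v : HeightOneSpectrum (𝓞 F)) : Nat.Primes × ℕ := (below v, deg v - 1)

theorem nm_pi (v : HeightOneSpectrum (𝓞 F)) : nm v = Qc (pi' v) := by
  obtain ⟨h1, h2, -⟩ := nm_eq v
  unfold Qc pi'
  rw [h1, Nat.sub_add_cancel h2]

theorem fib_inj (x : Nat.Primes × ℕ) : Function.Injective
    (fun v : {v : HeightOneSpectrum (𝓞 F) // pi' v = x} =>
      (⟨v.1, congrArg Prod.fst v.2⟩ : {v : HeightOneSpectrum (𝓞 F) // below v = x.1})) := by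
  intro u v h
  have h1 := congrArg Subtype.val h
  exact Subtype.ext h1

instance fib_fin (x : Nat.Primes × ℕ) : Finite {v : HeightOneSpectrum (𝓞 F) // pi' v = x} :=
  Finite.of_injective _ (fib_inj x)

noncomputable instance (x : Nat.Primes × ℕ) : Fintype {v : HeightOneSpectrum (𝓞 F) // pi' v = x} :=
  Fintype.ofFinite _

theorem fib_card (x : Nat.Primes × ℕ) :
    Fintype.card {v : HeightOneSpectrum (𝓞 F) // pi' v = x} ≤ Module.finrank ℚ F :=
  (Fintype.card_le_of_injective _ (fib_inj x)).trans (fiber_card_le x.1)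

/-- minus the sum of the coefficients of the primes of a given norm -/
noncomputable def co (c : HeightOneSpectrum (𝓞 F) → ℂ) (x : Nat.Primes × ℕ) : ℂ :=
  -∑ v : {v : HeightOneSpectrum (𝓞 F) // pi' v = x}, c v.1

theorem norm_co {c : HeightOneSpectrum (𝓞 F) → ℂ} {B : ℝ} (hc : ∀ v, ‖c v‖ ≤ B)
    (x : Nat.Primes × ℕ) : ‖co c x‖ ≤ Module.finrank ℚ F * |B| := by
  unfold co
  rw [norm_neg]
  refine (norm_sum_le _ _).trans ?_
  refine (Finset.sum_le_card_nsmul _ _ |B| fun v _ => (hc v.1).trans (le_abs_self B)).trans ?_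
  rw [nsmul_eq_mul, Finset.card_univ]
  exact mul_le_mul_of_nonneg_right (by exact_mod_cast fib_card x) (abs_nonneg B)

theorem norm_term (c : ℂ) (v : HeightOneSpectrum (𝓞 F)) (w : ℂ) :
    ‖c * ((nm v : ℕ) : ℂ) ^ (-w)‖ = ‖c‖ * (nm v : ℝ) ^ (-w.re) := by
  have h : 0 < nm v := by
    have := two_le_nm v
    omega
  rw [norm_mul, Complex.norm_natCast_cpow_of_pos h, Complex.neg_re]

theorem summable_c {c : HeightOneSpectrum (𝓞 F) → ℂ} {B : ℝ} (hc : ∀ v, ‖c v‖ ≤ B) {w : ℂ}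
    (hw : 1 < w.re) : Summable fun v => c v * ((nm v : ℕ) : ℂ) ^ (-w) := by
  refine Summable.of_norm_bounded ((nm_summable (K := F) hw).mul_left B) fun v => ?_
  rw [norm_term]
  exact mul_le_mul_of_nonneg_right (hc v) (by positivity)

theorem tsum_c {c : HeightOneSpectrum (𝓞 F) → ℂ} {B : ℝ} (hc : ∀ v, ‖c v‖ ≤ B) {w : ℂ}
    (hw : 1 < w.re) : ∑' v, c v * ((nm v : ℕ) : ℂ) ^ (-w) = -SD (co c) w := by
  have h0 := ((Equiv.sigmaFiberEquiv (pi' (F := F))).summable_iff.mpr (summable_c hc hw))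
  have h1 := h0.tsum_sigma
  have h2 := (Equiv.sigmaFiberEquiv (pi' (F := F))).tsum_eq
    (fun v => c v * ((nm v : ℕ) : ℂ) ^ (-w))
  have h3 : ∑' s : (y : Nat.Primes × ℕ) × {v : HeightOneSpectrum (𝓞 F) // pi' v = y},
      ((fun v => c v * ((nm v : ℕ) : ℂ) ^ (-w)) ∘ (Equiv.sigmaFiberEquiv (pi' (F := F)))) s =
      ∑' v, c v * ((nm v : ℕ) : ℂ) ^ (-w) := h2
  rw [← h3, h1]
  unfold SD
  rw [← tsum_neg]
  refine tsum_congr fun x => ?_
  rw [tsum_fintype]
  unfold co
  rw [neg_mul, neg_neg, Finset.sum_mul]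
  refine Finset.sum_congr rfl fun v _ => ?_
  show c v.1 * ((nm v.1 : ℕ) : ℂ) ^ (-w) = _
  rw [nm_pi, v.2]

/-- the logarithmic term is bounded by a power -/
theorem log_le_rpow {ε : ℝ} (hε : 0 < ε) (v : HeightOneSpectrum (𝓞 F)) :
    |Real.log (nm v)| ≤ (nm v : ℝ) ^ ε / ε := by
  have h := two_le_nm v
  have h1 : (1 : ℝ) ≤ nm v := by
    have : 1 ≤ nm v := by omega
    exact_mod_cast this
  rw [abs_of_nonneg (Real.log_nonneg h1)]
  exact Real.log_le_rpow_div (by positivity) hε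

theorem summable_log {c : HeightOneSpectrum (𝓞 F) → ℂ} {B : ℝ} (hc : ∀ v, ‖c v‖ ≤ B) {w : ℂ}
    (hw : 1 < w.re) :
    Summable fun v => c v * (Real.log (nm v) : ℂ) * ((nm v : ℕ) : ℂ) ^ (-w) := by
  obtain ⟨σ, h1, h2⟩ := exists_between hw
  have hε : 0 < w.re - σ := by linarith
  refine Summable.of_norm_bounded ((nm_summable (K := F) h1).mul_left (|B| / (w.re - σ)))
    fun v => ?_
  have hn : (0 : ℝ) < nm v := by
    have h := two_le_nm v
    have : 0 < nm v := by omega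
    exact_mod_cast this
  rw [norm_term, norm_mul, Complex.norm_real, Real.norm_eq_abs]
  have h3 : ‖c v‖ * |Real.log (nm v)| ≤ |B| * ((nm v : ℝ) ^ (w.re - σ) / (w.re - σ)) :=
    mul_le_mul ((hc v).trans (le_abs_self B)) (log_le_rpow hε v) (abs_nonneg _) (abs_nonneg _)
  refine (mul_le_mul_of_nonneg_right h3 (by positivity)).trans (le_of_eq ?_)
  have h4 : (nm v : ℝ) ^ (w.re - σ) * (nm v : ℝ) ^ (-w.re) = (nm v : ℝ) ^ (-σ) := by
    rw [← Real.rpow_add hn]
    congr 1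
    ring
  rw [← h4]
  ring

theorem deriv_term (c : ℂ) (v : HeightOneSpectrum (𝓞 F)) (w : ℂ) :
    HasDerivAt (fun w : ℂ => c * ((nm v : ℕ) : ℂ) ^ (-w))
      (-(c * (Real.log (nm v) : ℂ) * ((nm v : ℕ) : ℂ) ^ (-w))) w := by
  have hq : ((nm v : ℕ) : ℂ) ≠ 0 := by
    have h := two_le_nm v
    have : nm v ≠ 0 := by omega
    exact_mod_cast this
  have h1 := ((hasDerivAt_neg w).const_cpow (c := ((nm v : ℕ) : ℂ)) (Or.inl hq)).const_mul c
  refine h1.congr_deriv ?_
  rw [Complex.ofReal_log (Nat.cast_nonneg _), Complex.ofReal_natCast]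
  ring

theorem deriv_SD {c : HeightOneSpectrum (𝓞 F) → ℂ} {B : ℝ} (hc : ∀ v, ‖c v‖ ≤ B) {w : ℂ}
    (hw : 1 < w.re) : deriv (SD (co c)) w =
      ∑' v, c v * (Real.log (nm v) : ℂ) * ((nm v : ℕ) : ℂ) ^ (-w) := by
  obtain ⟨σ, h1, h2⟩ := exists_between hw
  have hopen : IsOpen {s : ℂ | σ < s.re} := isOpen_lt continuous_const Complex.continuous_re
  have h3 := Complex.hasSum_deriv_of_summable_norm (U := {s : ℂ | σ < s.re}) (z := w)
    (F := fun (v : HeightOneSpectrum (𝓞 F)) (w : ℂ) => c v * ((nm v : ℕ) : ℂ) ^ (-w))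
    ((nm_summable (K := F) h1).mul_left |B|)
    (fun v s _ => (deriv_term (c v) v s).differentiableAt.differentiableWithinAt) hopen
    (fun v s hs => by
      rw [norm_term]
      refine mul_le_mul ((hc v).trans (le_abs_self B)) ?_ (by positivity) (abs_nonneg _)
      have h := two_le_nm v
      have h1 : (1 : ℝ) ≤ nm v := by
        have : 1 ≤ nm v := by omega
        exact_mod_cast this
      apply Real.rpow_le_rpow_of_exponent_le h1
      have : σ < s.re := hs
      linarith) h2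
  have h4 : (fun w : ℂ => ∑' v, c v * ((nm v : ℕ) : ℂ) ^ (-w)) =ᶠ[𝓝 w] fun w => -SD (co c) w := by
    filter_upwards [hopen.mem_nhds (show w ∈ {s : ℂ | σ < s.re} from h2)] with s hs
    exact tsum_c hc (h1.trans hs)
  rw [h4.deriv_eq, deriv.fun_neg] at h3
  have h5 : HasSum (fun v => -(c v * (Real.log (nm v) : ℂ) * ((nm v : ℕ) : ℂ) ^ (-w)))
      (-deriv (SD (co c)) w) := by
    refine h3.congr_fun ?_ |> fun h => h
    intro v
    exact ((deriv_term (c v) v w).deriv).symm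
  have h6 := h5.neg
  simp only [neg_neg] at h6
  exact h6.tsum_eq.symm

/-- **The residue.** -/
theorem residue_of {c : HeightOneSpectrum (𝓞 F) → ℂ} {B : ℝ} (hc : ∀ v, ‖c v‖ ≤ B) {κ : Type}
    [Fintype κ] {L : κ → Type} [∀ j, Field (L j)] [∀ j, NumberField (L j)] {a : κ → ℝ} {D : ℝ}
    (h : ∀ᶠ p : Nat.Primes in cofinite, ‖co c (p, 0) + cmb L a p‖ ≤
      D * ((p : ℕ) : ℝ) ^ (-(1 / 2) : ℝ)) {r : ℤ} (hr : ∑ j, a j = r) :
    ∃ G : ℂ → ℂ, AnalyticAt ℂ G 1 ∧ ∀ᶠ w in 𝓝 (1 : ℂ), 1 < w.re →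
      ∑' v, c v * (Real.log (nm v) : ℂ) * ((nm v : ℕ) : ℂ) ^ (-w) = r / (w - 1) + G w := by
  obtain ⟨G, hG, hw⟩ := near_one (norm_co hc) h hr
  refine ⟨deriv G, hG.deriv, ?_⟩
  have hopen : IsOpen {w : ℂ | 1 < w.re} := isOpen_lt continuous_const Complex.continuous_re
  filter_upwards [hw.eventually_nhds, hG.eventually_analyticAt] with w h1 h2 h3
  have hne : w - 1 ≠ 0 := by
    intro h0
    have : w = 1 := sub_eq_zero.1 h0
    rw [this, Complex.one_re] at h3
    exact lt_irrefl _ h3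
  have h4 : (fun w => Complex.exp (SD (co c) w)) =ᶠ[𝓝 w]
      fun w => (w - 1) ^ r * Complex.exp (G w) := by
    filter_upwards [h1, hopen.mem_nhds h3] with s hs hs'
    exact hs hs'
  have h5 : DifferentiableAt ℂ (SD (co c)) w :=
    (SD_diff (norm_co hc)).differentiableAt (hopen.mem_nhds h3)
  have h6 : HasDerivAt (fun w => Complex.exp (SD (co c) w))
      (Complex.exp (SD (co c) w) * deriv (SD (co c)) w) w := h5.hasDerivAt.cexp
  have h7 : HasDerivAt (fun w : ℂ => (w - 1) ^ r * Complex.exp (G w))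
      (((r : ℂ) * (w - 1) ^ (r - 1) * 1) * Complex.exp (G w) +
        (w - 1) ^ r * (Complex.exp (G w) * deriv G w)) w := by
    refine HasDerivAt.mul ?_ h2.differentiableAt.hasDerivAt.cexp
    exact (hasDerivAt_zpow r (w - 1) (Or.inl hne)).comp w ((hasDerivAt_id w).sub_const 1)
  have h8 := h6.unique (h7.congr_of_eventuallyEq h4)
  have h9 : Complex.exp (SD (co c) w) = (w - 1) ^ r * Complex.exp (G w) := h1.self_of_nhds h3
  have h10 : (w - 1) ^ r ≠ 0 := zpow_ne_zero _ hne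
  have h11 := Complex.exp_ne_zero (G w)
  rw [← deriv_SD hc h3]
  rw [h9, zpow_sub_one₀ hne] at h8
  have h12 : (w - 1) ^ r * Complex.exp (G w) * deriv (SD (co c)) w =
      (w - 1) ^ r * Complex.exp (G w) * (r / (w - 1) + deriv G w) := by
    rw [h8]
    field_simp
  exact mul_left_cancel₀ (mul_ne_zero h10 h11) h12

end

end Pool.Agent.Y707.PR
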