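import Pool.Agent.Y707.PR.Res

/-! Residues for the values of a family over a number field. -/

set_option autoImplicit false
set_option maxHeartbeats 400000

namespace Pool.Agent.Y707.PR

open NumberField IsDedekindDomain Filter Topology
open Pool.Agent.W401.Cheb Pool.Agent.W540.BE
open Pool.Agent.H921R2.TatePole (nm two_le_nm below deg nm_eq nm_summable fiber_card_le kerPrime
  kerPrime_bijective)
open Pool.Agent.W353.TD (rank)
open Pool.Agent.W353.FB (LocalValue ValueAt IsPartOf Uniq valueAt_ker finite_below)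
open Pool.Agent.Y707.PH (Off)
open Pool.Agent.Y707.RX (SD SD_diff summable_bdd cmb near_one key sm)

section
variable {F : Type} [Field F] [NumberField F]

/-- The Dirichlet series `∑ b_v (log q_v) q_v^{-s}` over the primes `v` of `F` outside `R`. -/
noncomputable def series (R : Finset (HeightOneSpectrum (𝓞 F))) (b : HeightOneSpectrum (𝓞 F) → ℝ)
    (s : ℂ) : ℂ :=
  ∑' v : {v : HeightOneSpectrum (𝓞 F) // v ∉ R}, (b v.1 : ℂ) *
    (Real.log (Ideal.absNorm v.1.asIdeal) : ℂ) * (Ideal.absNorm v.1.asIdeal : ℂ) ^ (-s)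

/-- The series `∑ b_v (log q_v) q_v^{-s}` over the primes `v ∉ R` converges absolutely for
`Re s > s₀`, it has a meromorphic continuation to a neighbourhood of `s₀`, and its residue at `s₀`
is `k`: near `s₀` it is the sum of `k / (s - s₀)` and of an analytic function. -/
def HasResidue (R : Finset (HeightOneSpectrum (𝓞 F))) (b : HeightOneSpectrum (𝓞 F) → ℝ)
    (s₀ k : ℝ) : Prop :=
  (∀ s : ℂ, s₀ < s.re → Summable fun v : {v : HeightOneSpectrum (𝓞 F) // v ∉ R} => (b v.1 : ℂ) *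
    (Real.log (Ideal.absNorm v.1.asIdeal) : ℂ) * (Ideal.absNorm v.1.asIdeal : ℂ) ^ (-s)) ∧
  ∃ G : ℂ → ℂ, AnalyticAt ℂ G s₀ ∧
    ∀ᶠ s in 𝓝 (s₀ : ℂ), s₀ < s.re → series R b s = k / (s - s₀) + G s

/-- the sum over the primes of degree one -/
theorem sum_deg_one (c : HeightOneSpectrum (𝓞 F) → ℂ) (p : Nat.Primes) :
    co c (p, 0) = -∑ᶠ ψ : 𝓞 F →+* ZMod (p : ℕ), c (kerPrime p ψ).1.1 := by
  classical
  unfold co
  congr 1
  rw [← finsum_eq_sum_of_fintype]
  let e1 : {v : {v : HeightOneSpectrum (𝓞 F) // below v = p} // deg v.1 = 1} ≃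
      {v : HeightOneSpectrum (𝓞 F) // pi' v = (p, 0)} :=
    { toFun := fun v => ⟨v.1.1, by
        unfold pi'
        rw [v.1.2, v.2]⟩
      invFun := fun v => ⟨⟨v.1, congrArg Prod.fst v.2⟩, by
        have h1 : deg v.1 - 1 = 0 := congrArg Prod.snd v.2
        have h2 := (nm_eq v.1).2.1
        show deg v.1 = 1
        omega⟩
      left_inv := fun v => rfl
      right_inv := fun v => rfl }
  let e2 := (Equiv.ofBijective _ (kerPrime_bijective (K := F) p)).trans e1
  exact (finsum_comp_equiv e2 (f := fun v => c v.1)).symm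

theorem co_const (p : Nat.Primes) (z : ℂ) :
    co (fun _ : HeightOneSpectrum (𝓞 F) => z) (p, 0) =
      -(z * (Nat.card (𝓞 F →+* ZMod (p : ℕ)) : ℂ)) := by
  have hfin := Pool.Agent.H921R2.TatePole.hom_finite (K := F) p
  let _ := Fintype.ofFinite (𝓞 F →+* ZMod (p : ℕ))
  rw [sum_deg_one, finsum_eq_sum_of_fintype, Finset.sum_const, Finset.card_univ, nsmul_eq_mul,
    Nat.card_eq_fintype_card, mul_comm]

end

section
variable {K : Type} [Field K] [NumberField K] {W : Type} [AddCommGroup W] [Module ℚ W]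
  [FiniteDimensional ℚ W] {ρ : Representation ℚ (GK K) W} {P : LocalValue K}

open Classical in
/-- **The residue for the values of a family.** -/
theorem residue_sys (hu : Uniq P) (hP : IsPartOf P (Module.finrank ℚ W) ρ)
    (F : IntermediateField K (AlgebraicClosure K)) [NumberField F]
    {b : HeightOneSpectrum (𝓞 F) → ℝ} (hb : ∀ᶠ v in cofinite, ValueAt P v (b v)) {B : ℝ}
    (hB : ∀ v, |b v| ≤ B) (n : ℤ) (R : Finset (HeightOneSpectrum (𝓞 F))) :
    ∃ G : ℂ → ℂ, AnalyticAt ℂ G 1 ∧ ∀ᶠ w in 𝓝 (1 : ℂ), 1 < w.re →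
      ∑' v : HeightOneSpectrum (𝓞 F), (if v ∈ R then 0 else ((n + b v : ℝ) : ℂ)) *
        (Real.log (nm v) : ℂ) * ((nm v : ℕ) : ℂ) ^ (-w) = ((n + rank ρ F : ℤ) : ℂ) / (w - 1) + G w := by
  classical
  let δ : ∀ (κ : Type) [Field κ], (𝓞 K →+* κ) → ℝ := fun κ _ φ =>
    if h : ∃ z, P κ φ z then h.choose else 0
  have hval : ∀ (κ : Type) [Field κ] [Finite κ] (φ : 𝓞 K →+* κ), Off ∅ φ → ∀ z : ℝ, P κ φ z →
      z = δ κ φ := by
    intro κ _ _ φ _ z hz
    have h : ∃ z, P κ φ z := ⟨z, hz⟩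
    have e : δ κ φ = h.choose := dif_pos h
    rw [e]
    exact hu κ φ z _ hz h.choose_spec
  obtain ⟨κ, hκ, L, hL, a, D, ha, hk⟩ := key (R := ∅) (δ := δ) hP hval F
  set c : HeightOneSpectrum (𝓞 F) → ℂ := fun v => if v ∈ R then 0 else ((n + b v : ℝ) : ℂ) with hc
  have hcB : ∀ v, ‖c v‖ ≤ |(n : ℝ)| + B := by
    intro v
    have hB0 : 0 ≤ B := (abs_nonneg _).trans (hB v)
    rw [hc]
    simp only
    split_ifs
    · rw [norm_zero]
      positivity
    · rw [Complex.norm_real, Real.norm_eq_abs]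
      exact (abs_add_le _ _).trans (by linarith [hB v])
  let L' : Option κ → IntermediateField K (AlgebraicClosure K) := fun j => j.elim F fun i => L i
  have i2 : ∀ j, NumberField (L' j) := by
    rintro (_ | i)
    · exact inferInstanceAs (NumberField F)
    · exact hL i
  let a' : Option κ → ℝ := fun j => j.elim (n : ℝ) a
  have hcmb : ∀ p : Nat.Primes, cmb (fun j => L' j) a' p = (n : ℂ) * (Nat.card (𝓞 F →+* ZMod (p : ℕ)) : ℂ) +
      cmb (fun j => L j) a p := by
    intro p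
    unfold cmb
    rw [Fintype.sum_option]
    rfl
  have ha' : ∑ j, a' j = ((n + rank ρ F : ℤ) : ℝ) := by
    rw [Fintype.sum_option]
    show (n : ℝ) + ∑ i, a i = _
    rw [ha]
    push_cast
    rfl
  refine residue_of (L := fun j => L' j) (a := a') hcB (D := D) ?_ ha'
  rw [Filter.eventually_cofinite] at hb
  filter_upwards [hk, finite_below (F := F) R.finite_toSet, finite_below (F := F) hb]
    with p h1 h2 h3
  have : Fact (p : ℕ).Prime := ⟨p.2⟩
  have hfin := Pool.Agent.H921R2.TatePole.hom_finite (K := F) p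
  let _ := Fintype.ofFinite (𝓞 F →+* ZMod (p : ℕ))
  have e1 : co c (p, 0) = -((n : ℂ) * (Nat.card (𝓞 F →+* ZMod (p : ℕ)) : ℂ)) +
      ((-sm ∅ F δ (ZMod (p : ℕ)) : ℝ) : ℂ) := by
    rw [sum_deg_one, finsum_eq_sum_of_fintype]
    unfold sm
    rw [finsum_eq_sum_of_fintype, Nat.card_eq_fintype_card]
    have e2 : ∀ ψ : 𝓞 F →+* ZMod (p : ℕ), c (kerPrime p ψ).1.1 = (n : ℂ) +
        ((if Off (∅ : Finset (HeightOneSpectrum (𝓞 K))) (ψ.comp (algebraMap (𝓞 K) (𝓞 F))) then
          δ (ZMod (p : ℕ)) (ψ.comp (algebraMap (𝓞 K) (𝓞 F))) else 0 : ℝ) : ℂ) := by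
      intro ψ
      have h4 : (kerPrime p ψ).1.1 ∉ R := h2 ψ
      have h5 : ValueAt P (kerPrime p ψ).1.1 (b (kerPrime p ψ).1.1) := by
        by_contra hcon
        exact h3 ψ hcon
      have h6 : Off (∅ : Finset (HeightOneSpectrum (𝓞 K)))
          (ψ.comp (algebraMap (𝓞 K) (𝓞 F))) := fun v hv => absurd hv (Finset.notMem_empty v)
      have h7 := hval (ZMod (p : ℕ)) (ψ.comp (algebraMap (𝓞 K) (𝓞 F))) h6 _ (valueAt_ker h5)
      rw [if_pos h6, ← h7, hc]
      simp only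
      rw [if_neg h4]
      push_cast
      ring
    rw [Finset.sum_congr rfl fun ψ _ => e2 ψ, Finset.sum_add_distrib, Finset.sum_const,
      Finset.card_univ, nsmul_eq_mul]
    push_cast
    ring
  rw [e1, hcmb]
  have e3 : -((n : ℂ) * (Nat.card (𝓞 F →+* ZMod (p : ℕ)) : ℂ)) +
      ((-sm ∅ F δ (ZMod (p : ℕ)) : ℝ) : ℂ) +
      ((n : ℂ) * (Nat.card (𝓞 F →+* ZMod (p : ℕ)) : ℂ) + cmb (fun j => L j) a p) =
      ((-sm ∅ F δ (ZMod (p : ℕ)) : ℝ) : ℂ) + cmb (fun j => L j) a p := by ring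
  rw [e3]
  exact h1

end

section
variable {F : Type} [Field F] [NumberField F]

open Classical in
theorem series_eq (R : Finset (HeightOneSpectrum (𝓞 F))) (b : HeightOneSpectrum (𝓞 F) → ℝ)
    (s : ℂ) : series R b s = ∑' v : HeightOneSpectrum (𝓞 F),
      (if v ∈ R then 0 else (b v : ℂ)) * (Real.log (nm v) : ℂ) * ((nm v : ℕ) : ℂ) ^ (-s) := by
  classical
  unfold series
  have h := tsum_subtype {v : HeightOneSpectrum (𝓞 F) | v ∉ R}
    (fun v => (b v : ℂ) * (Real.log (nm v) : ℂ) * ((nm v : ℕ) : ℂ) ^ (-s))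
  refine Eq.trans (h : _) (tsum_congr fun v => ?_)
  by_cases hv : v ∈ R
  · rw [if_pos hv, zero_mul, zero_mul]
    exact Set.indicator_of_notMem (fun h0 : v ∉ R => h0 hv) _
  · rw [if_neg hv]
    exact Set.indicator_of_mem (show v ∈ {v : HeightOneSpectrum (𝓞 F) | v ∉ R} from hv) _

end

end Pool.Agent.Y707.PR
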